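import Pool.Agent.H606.OS.Stm

/-!
# Task B2 of project OS (helper606): few coincidences (by helper385)
-/

open MeasureTheory Filter Topology Finset
open Pool.Agent.H606.OS

namespace Pool.Agent.H385.OS.B2

/-- the pair sum is bounded below by the diagonal and the distant pairs -/
theorem ssum_ge {N : ℕ} (x : Fin N → ℝ) (R b A : ℝ) (hR : 0 < R) (hA : 0 < A)
    (h0 : kk 0 = 2 / 3) (hs : ∀ x, kk (-x) = kk x) (hp : ∀ x, 0 ≤ kk x) :
    2 / 3 * dg x R + 2 * ks x R A (fun u => kk (2 * Real.pi * b * u)) ≤ ssum x R b := by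
  classical
  unfold ssum dg ks
  rw [mul_div_assoc', mul_div_assoc', ← add_div]
  refine div_le_div_of_nonneg_right ?_ hR.le
  have hsum : ∑ j, ∑ k, kk (2 * Real.pi * b * (x j - x k)) =
      ∑ q : Fin N × Fin N, kk (2 * Real.pi * b * (x q.1 - x q.2)) := by
    rw [Fintype.sum_prod_type]
  rw [hsum]
  set f : Fin N × Fin N → ℝ := fun q => kk (2 * Real.pi * b * (x q.1 - x q.2)) with hf
  set S0 := (Finset.univ : Finset (Fin N × Fin N)).filter (fun q => x q.1 = x q.2) with hS0
  set S1 := (Finset.univ : Finset (Fin N × Fin N)).filter (fun q => A ≤ x q.1 - x q.2) with hS1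
  set S2 := (Finset.univ : Finset (Fin N × Fin N)).filter (fun q => A ≤ x q.2 - x q.1) with hS2
  have hd : ({q : Fin N × Fin N | x q.1 = x q.2}.ncard : ℝ) = (S0.card : ℝ) := by
    have : {q : Fin N × Fin N | x q.1 = x q.2} = (S0 : Set (Fin N × Fin N)) := by
      ext q
      simp [hS0]
    rw [this, Set.ncard_coe_finset]
  have e0 : ∑ q ∈ S0, f q = 2 / 3 * (S0.card : ℝ) := by
    have : ∀ q ∈ S0, f q = 2 / 3 := by
      intro q hq
      have h1 : x q.1 = x q.2 := (Finset.mem_filter.1 hq).2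
      rw [hf]
      simp only [h1, sub_self, mul_zero, h0]
    rw [Finset.sum_congr rfl this, Finset.sum_const, nsmul_eq_mul, mul_comm]
  have e2 : ∑ q ∈ S2, f q = ∑ q ∈ S1, f q := by
    refine Finset.sum_bij' (fun q _ => q.swap) (fun q _ => q.swap) ?_ ?_ ?_ ?_ ?_
    · intro q hq
      exact Finset.mem_filter.2 ⟨Finset.mem_univ _, (Finset.mem_filter.1 hq).2⟩
    · intro q hq
      exact Finset.mem_filter.2 ⟨Finset.mem_univ _, (Finset.mem_filter.1 hq).2⟩
    · intro q _
      exact Prod.swap_swap q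
    · intro q _
      exact Prod.swap_swap q
    · intro q _
      rw [hf]
      change kk (2 * Real.pi * b * (x q.1 - x q.2)) = kk (2 * Real.pi * b * (x q.2 - x q.1))
      rw [← hs]
      congr 1
      ring
  have d01 : Disjoint S0 S1 := by
    rw [Finset.disjoint_left]
    intro q h1 h2
    have h3 : x q.1 = x q.2 := (Finset.mem_filter.1 h1).2
    have h4 : A ≤ x q.1 - x q.2 := (Finset.mem_filter.1 h2).2
    linarith
  have d012 : Disjoint (S0 ∪ S1) S2 := by
    rw [Finset.disjoint_left]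
    intro q h1 h2
    have h4 : A ≤ x q.2 - x q.1 := (Finset.mem_filter.1 h2).2
    rcases Finset.mem_union.1 h1 with h | h
    · have h3 : x q.1 = x q.2 := (Finset.mem_filter.1 h).2
      linarith
    · have h3 : A ≤ x q.1 - x q.2 := (Finset.mem_filter.1 h).2
      linarith
  have hle : ∑ q ∈ (S0 ∪ S1) ∪ S2, f q ≤ ∑ q : Fin N × Fin N, f q :=
    Finset.sum_le_sum_of_subset_of_nonneg (Finset.subset_univ _) fun q _ _ => hp _
  rw [Finset.sum_union d012, Finset.sum_union d01, e0, e2] at hle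
  rw [hd]
  linarith

theorem dg_ge {N : ℕ} (x : Fin N → ℝ) (R : ℝ) (hR : 0 < R) : (N : ℝ) / R ≤ dg x R := by
  unfold dg
  refine div_le_div_of_nonneg_right ?_ hR.le
  have h1 : (Set.range fun j : Fin N => (j, j)) ⊆ {q : Fin N × Fin N | x q.1 = x q.2} := by
    rintro q ⟨j, rfl⟩
    rfl
  have h2 := Set.ncard_le_ncard h1 (Set.toFinite _)
  have h3 : (Set.range fun j : Fin N => (j, j)).ncard = N := by
    rw [← Set.image_univ, Set.ncard_image_of_injective _ (fun a b h => (Prod.ext_iff.1 h).1),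
      Set.ncard_univ, Nat.card_eq_fintype_card, Fintype.card_fin]
  rw [h3] at h2
  exact_mod_cast h2

theorem Fg_le (u : ℝ) : Fg u ≤ 1 := by
  unfold Fg
  have := sq_nonneg (Real.sin (Real.pi * u) / (Real.pi * u))
  linarith

theorem t_B2 (hKK : S_KK) (hGUE : S_GUE) (hLO : S_LO) : S_B2 := by
  obtain ⟨C, hC1, hkc, hk0, hks, hkp, hka, hkC, -, -, -⟩ := hKK
  intro C1 D l hC hl hlo
  -- the upper bound
  have hup : ∀ ε : ℝ, 0 < ε → ε ≤ 1 / 12 → ∀ᶠ T in l,
      dg (D.x T) (D.R T) ≤ 1 + (6 + 3 * C1) * ε := by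
    intro ε hε hε1
    have hpi : 0 < 2 * Real.pi * ε := by positivity
    obtain ⟨K, hK⟩ : ∃ K : ℝ → ℝ, K = fun u => kk (2 * Real.pi * ε * u) := ⟨_, rfl⟩
    have hKc : Continuous K := by
      rw [hK]
      exact hkc.comp (continuous_const.mul continuous_id)
    have hK0 : ∀ u, 0 ≤ K u := fun u => by rw [hK]; exact hkp _
    have hK1 : ∀ u, 0 ≤ u → K u ≤ 1 := by
      intro u hu
      rw [hK]
      have h1 : kk (2 * Real.pi * ε * u) ≤ kk 0 :=
        hka (Set.mem_Ici.2 le_rfl) (Set.mem_Ici.2 (by positivity)) (by positivity)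
      rw [hk0] at h1
      show kk (2 * Real.pi * ε * u) ≤ 1
      linarith
    have hKB : ∀ u, 0 ≤ u → 0 ≤ K u ∧
        K u ≤ (C * (1 + 1 / (2 * Real.pi * ε) ^ 2)) * ka u := by
      intro u hu
      refine ⟨hK0 u, ?_⟩
      have h1 : K u ≤ C * ka (2 * Real.pi * ε * u) := by
        rw [hK]
        exact hkC _
      refine h1.trans ?_
      rw [mul_assoc C]
      refine mul_le_mul_of_nonneg_left ?_ (by linarith)
      unfold ka
      rw [mul_one_div, div_le_div_iff₀ (by positivity) (by positivity), one_mul]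
      obtain ⟨c, hc⟩ : ∃ c : ℝ, c = 2 * Real.pi * ε := ⟨_, rfl⟩
      rw [← hc] at hpi ⊢
      have h2 : (1 + 1 / c ^ 2) * (1 + (c * u) ^ 2) = 1 + u ^ 2 + (c ^ 2 * u ^ 2 + 1 / c ^ 2) := by
        field_simp
        ring
      rw [h2]
      have : 0 ≤ c ^ 2 * u ^ 2 + 1 / c ^ 2 := by positivity
      linarith
    have hlo1 := hLO C1 D l hC hl ε hε (hlo ε hε) K (C * (1 + 1 / (2 * Real.pi * ε) ^ 2)) hKc hKB
      ε (ε + 1) 0 le_rfl (by linarith) le_rfl (fun u _ => hK0 u) ε hε
    have hn1 := hl (D.n1 1 ε hε hε1)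
    have hRl := hl D.hR
    obtain ⟨hint, hgue⟩ := hGUE ε hε (by linarith)
    -- the integral over the small interval
    have hsplit : ∫ u in Set.Ioi (0 : ℝ), K u * Fg u =
        (∫ u in Set.Ioc (0 : ℝ) ε, K u * Fg u) + ∫ u in Set.Ioi ε, K u * Fg u := by
      rw [← Set.Ioc_union_Ioi_eq_Ioi hε.le]
      have hint' : IntegrableOn (fun u => K u * Fg u) (Set.Ioi 0) := by
        rw [hK]
        exact hint
      refine setIntegral_union ?_ measurableSet_Ioi
        (hint'.mono_set Set.Ioc_subset_Ioi_self) (hint'.mono_set (Set.Ioi_subset_Ioi hε.le))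
      exact Set.disjoint_left.2 fun u h1 h2 => not_lt.2 h1.2 h2
    have hsmall : ∫ u in Set.Ioc (0 : ℝ) ε, K u * Fg u ≤ ε := by
      have hint' : IntegrableOn (fun u => K u * Fg u) (Set.Ioi 0) := by
        rw [hK]
        exact hint
      calc ∫ u in Set.Ioc (0 : ℝ) ε, K u * Fg u ≤ ∫ u in Set.Ioc (0 : ℝ) ε, (1 : ℝ) := by
            refine setIntegral_mono_on (hint'.mono_set Set.Ioc_subset_Ioi_self)
              (by simp) measurableSet_Ioc ?_
            intro u hu
            have h1 := hK0 u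
            have h2 := hK1 u hu.1.le
            have h3 := Fg_le u
            nlinarith
        _ = ε := by simp [hε.le]
    have hgue' : 2 / 3 + 2 * ∫ u in Set.Ioi (0 : ℝ), K u * Fg u = 1 / ε + ε / 6 := by
      rw [hK]
      exact hgue
    filter_upwards [hlo1, hn1, hRl] with T h1 h2 h3
    have h4 := ssum_ge (D.x T) (D.R T) ε ε h3 hε hk0 hks hkp
    rw [← hK] at h4
    rw [zero_mul, add_zero] at h1
    simp only [Finset.range_one, Finset.sum_singleton, pow_zero, div_one, Nat.cast_one,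
      Real.sqrt_one] at h2
    rw [div_le_iff₀ (by positivity)] at h2
    have h5 : ε ^ 2 ≤ ε := by nlinarith
    have h6 : C1 * (1 + 1) * ε ^ 2 ≤ 2 * C1 * ε := by nlinarith
    linarith
  rw [Metric.tendsto_nhds]
  intro ε₀ hε₀
  obtain ⟨ε, hε, hε1, hε2⟩ : ∃ ε : ℝ, 0 < ε ∧ ε ≤ 1 / 12 ∧ (6 + 3 * C1) * ε < ε₀ := by
    refine ⟨min (1 / 12) (ε₀ / (2 * (6 + 3 * C1))), lt_min (by norm_num) (by positivity),
      min_le_left _ _, ?_⟩
    have h1 : (0 : ℝ) < 6 + 3 * C1 := by positivity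
    calc (6 + 3 * C1) * min (1 / 12) (ε₀ / (2 * (6 + 3 * C1))) ≤
        (6 + 3 * C1) * (ε₀ / (2 * (6 + 3 * C1))) :=
          mul_le_mul_of_nonneg_left (min_le_right _ _) h1.le
      _ = ε₀ / 2 := by
          field_simp
      _ < ε₀ := by linarith
  have hN := (D.hN.mono_left hl).eventually (lt_mem_nhds (show 1 - ε₀ < 1 by linarith))
  filter_upwards [hup ε hε hε1, hN, hl D.hR] with T h1 h2 h3
  have h4 := dg_ge (D.x T) (D.R T) h3
  rw [Real.dist_eq, abs_lt]
  constructor <;> linarith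

end Pool.Agent.H385.OS.B2
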